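import Pool.Agent.V11250.LieExp.Tpp
import Pool.Agent.V11250.LieExp.SL2

namespace Pool.Agent.Results.MP_9660fa_lc.FiniteIffThree

open Pool.Agent.V11250.LieExp

theorem bound (m : ℕ) : lieExponent (m + 3) < ⊤ := by
  have hc := card_pos (m + 3)
  unfold lieExponent
  refine lt_of_le_of_lt (iInf_le_of_le (Fintype.card (Option (Pos (m + 3)))) <|
    iInf_le_of_le (Fintype.card (Pos (m + 3))) <| iInf_le_of_le (Fintype.card (Pos (m + 3))) <|
    iInf_le_of_le _ <| iInf_le_of_le _ <| iInf_le_of_le _ <|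
    iInf_le_of_le ⟨up_sub (m := m), lo_sub (m + 3), rot_sub (m + 3), tpp, ?_⟩ le_rfl)
    ENNReal.ofReal_lt_top
  have h1 : (2 * (Fintype.card (Pos (m + 3)) : ℝ) + ((m + 3 : ℕ) : ℝ)) =
      ((m + 3 : ℕ) : ℝ) * ((m + 3 : ℕ) : ℝ) := by exact_mod_cast hc
  rw [Fintype.card_option]
  push_cast at h1 ⊢
  nlinarith

theorem result (n : ℕ) (hn : 2 ≤ n) : lieExponent n < ⊤ ↔ 3 ≤ n := by
  constructor
  · intro h
    by_contra h3
    have h2 : n = 2 := by omega
    subst h2
    have htop : lieExponent 2 = ⊤ := by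
      unfold lieExponent
      simp only [iInf_eq_top]
      rintro d₁ d₂ d₃ M₁ M₂ M₃ ⟨h1, h2, h3', h4, h5⟩
      exfalso
      have h6 := sum_le_three h1 h2 h3' h4
      have h7 : (d₁ : ℝ) + d₂ + d₃ ≤ 3 := by exact_mod_cast h6
      norm_num at h5
      linarith
    rw [htop] at h
    exact lt_irrefl _ h
  · intro h
    obtain ⟨m, rfl⟩ : ∃ m, n = m + 3 := ⟨n - 3, by omega⟩
    exact bound m

end Pool.Agent.Results.MP_9660fa_lc.FiniteIffThree
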